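import Pool.Agent.Helper72.PT.St

/-! PT module Cross: splitting of the lists at a crossing -/

open Finset

namespace Pool.PTCross

open Pool.HW Pool.PL Pool.PT

variable {α : Type} [DecidableEq α] (S : Sys α)

omit [DecidableEq α] in
theorem ht_mono {K L : List α} (h : K <+: L) : S.ht K ≤ S.ht L := by
  obtain ⟨t, rfl⟩ := h
  rw [Sys.ht_append]
  omega

omit [DecidableEq α] in
theorem prefix_dropLast {C C' : List α} (h : C <+: C') (hne : C ≠ C') : C <+: C'.dropLast := by
  obtain ⟨t, rfl⟩ := h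
  have ht : t ≠ [] := by
    rintro rfl
    exact hne (List.append_nil C).symm
  rw [List.dropLast_append_of_ne_nil ht]
  exact List.prefix_append _ _

theorem CR_unique {r : ℕ} {C C' M : List α} (hC : C ∈ S.CR r) (hC' : C' ∈ S.CR r)
    (h : C <+: M) (h' : C' <+: M) : C = C' := by
  rw [Sys.mem_CR] at hC hC'
  rcases List.prefix_or_prefix_of_prefix h h' with h1 | h1
  · by_contra hne
    have h2 := ht_mono S (prefix_dropLast h1 hne)
    omega
  · by_contra hne
    have h2 := ht_mono S (prefix_dropLast h1 (Ne.symm hne))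
    omega

theorem exists_CR {r : ℕ} {L : List α} (hL : ∀ p ∈ L, p ∈ S.P) (h : r < S.ht L) :
    ∃ C R, L = C ++ R ∧ C ∈ S.CR r := by
  have hex : ∃ k, r < S.ht (L.take k) := ⟨L.length, by rw [List.take_length]; exact h⟩
  classical
  set k := Nat.find hex with hk
  have hk1 : r < S.ht (L.take k) := Nat.find_spec hex
  have hk0 : k ≠ 0 := by
    intro h0
    rw [h0, List.take_zero, Sys.ht_nil] at hk1
    omega
  have hk2 : S.ht (L.take (k - 1)) ≤ r := by
    have := Nat.find_min hex (m := k - 1) (by omega)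
    omega
  refine ⟨L.take k, L.drop k, (List.take_append_drop k L).symm, ?_⟩
  rw [Sys.mem_CR]
  refine ⟨fun p hp => hL p (List.mem_of_mem_take hp), hk1, ?_⟩
  have hkl : k ≤ L.length := by
    by_contra hlt
    have h3 : L.take (k - 1) = L := List.take_of_length_le (by omega)
    rw [h3] at hk2
    omega
  have h4 : (L.take k).dropLast = L.take (k - 1) := by
    rw [List.dropLast_eq_take, List.length_take, List.take_take]
    congr 1
    omega
  rw [h4]
  exact hk2

/-- sums over the lists of height `h`, split at the crossing of `r` -/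
theorem sum_LH {r h : ℕ} (hrh : r < h) (F : List α → ℝ) :
    ∑ L ∈ S.LH h, F L = ∑ C ∈ (S.CR r).filter (fun C => S.ht C ≤ h),
      ∑ R ∈ S.LH (h - S.ht C), F (C ++ R) := by
  rw [Finset.sum_sigma']
  symm
  refine Finset.sum_bij (fun x _ => x.1 ++ x.2) ?_ ?_ ?_ ?_
  · rintro ⟨C, R⟩ hx
    rw [Finset.mem_sigma, Finset.mem_filter, Sys.mem_CR, Sys.mem_LH] at hx
    obtain ⟨⟨⟨h1, h2, h3⟩, h4⟩, h5, h6⟩ := hx
    show C ++ R ∈ S.LH h
    simp only at h1 h2 h3 h4 h5 h6
    rw [Sys.mem_LH]
    constructor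
    · intro p hp
      rcases List.mem_append.1 hp with hp | hp
      · exact h1 p hp
      · exact h5 p hp
    · rw [Sys.ht_append, h6]
      omega
  · rintro ⟨C, R⟩ hx ⟨C', R'⟩ hx' heq
    rw [Finset.mem_sigma, Finset.mem_filter] at hx hx'
    have heq' : C ++ R = C' ++ R' := heq
    have h1 : C = C' := CR_unique S hx.1.1 hx'.1.1 (List.prefix_append C R)
      (heq' ▸ List.prefix_append C' R')
    subst h1
    have h2 : R = R' := List.append_cancel_left heq'
    rw [h2]
  · intro L hL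
    rw [Sys.mem_LH] at hL
    obtain ⟨C, R, h1, h2⟩ := exists_CR S hL.1 (by rw [hL.2]; exact hrh)
    have h3 : S.ht C + S.ht R = h := by rw [← Sys.ht_append, ← h1, hL.2]
    refine ⟨⟨C, R⟩, ?_, h1.symm⟩
    rw [Finset.mem_sigma, Finset.mem_filter, Sys.mem_LH]
    refine ⟨⟨h2, by simp only; omega⟩, fun p hp => hL.1 p ?_, by simp only; omega⟩
    rw [h1]
    exact List.mem_append_right _ hp
  · rintro ⟨C, R⟩ _
    rfl

omit [DecidableEq α] in
theorem hts_append (C R : List α) : S.hts C ⊆ S.hts (C ++ R) := by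
  intro t ht
  rw [Sys.mem_hts] at ht ⊢
  obtain ⟨K, hK, hne, hKt⟩ := ht
  exact ⟨K, hK.trans (List.prefix_append C R), hne, hKt⟩

theorem ncr_le_nc (r : ℕ) (C C' R R' : List α) : S.ncr r C C' ≤ S.nc (C ++ R) (C' ++ R') := by
  unfold Sys.ncr Sys.nc
  refine Finset.card_le_card ?_
  refine (Finset.filter_subset _ _).trans ?_
  exact Finset.inter_subset_inter (hts_append S C R) (hts_append S C' R')

theorem cross (hE : StE) : StCross := by
  intro α _ S r
  refine ⟨?_, ?_, ?_⟩
  · have h := hE α S.P S.w S.w_nonneg S.w_sum (List α) (S.CR r) (fun C => C) (fun _ => [])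
      (fun _ => 1) 1 (fun _ _ => zero_le_one)
      (fun C hC => ⟨((S.mem_CR).1 hC).1, fun p hp => absurd hp List.not_mem_nil⟩) ?_
    · refine (le_of_eq ?_).trans h
      refine Finset.sum_congr rfl fun C _ => ?_
      rw [List.map_nil, List.prod_nil, mul_one, one_mul]
      rfl
    · intro M M' _ _
      rw [Finset.sum_const, nsmul_eq_mul, mul_one]
      have h1 : ((S.CR r).filter (fun C => C <+: M ∧ [] <+: M')).card ≤ 1 := by
        rw [Finset.card_le_one]
        intro C hC C' hC'
        rw [Finset.mem_filter] at hC hC'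
        exact CR_unique S hC.1 hC'.1 hC.2.1 hC'.2.1
      exact_mod_cast h1
  · intro h hrh
    unfold Sys.u
    rw [sum_LH S hrh]
    refine Finset.sum_congr rfl fun C _ => ?_
    rw [Finset.mul_sum]
    exact Finset.sum_congr rfl fun R _ => Sys.wt_append S C R
  · intro y x hy hx
    unfold Sys.Dn
    have hRHS : ∑ q ∈ (S.CR r ×ˢ S.CR r).filter (fun q => S.ht q.1 ≤ y ∧ S.ht q.2 ≤ x),
        S.wt q.1 * S.wt q.2 / ((S.ncr r q.1 q.2 : ℝ) + 1) *
          (S.u (y - S.ht q.1) * S.u (x - S.ht q.2)) =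
        ∑ C ∈ (S.CR r).filter (fun C => S.ht C ≤ y), ∑ R ∈ S.LH (y - S.ht C),
          ∑ C' ∈ (S.CR r).filter (fun C => S.ht C ≤ x), ∑ R' ∈ S.LH (x - S.ht C'),
            S.wt C * S.wt C' / ((S.ncr r C C' : ℝ) + 1) * (S.wt R * S.wt R') := by
      have hfp : (S.CR r ×ˢ S.CR r).filter (fun q => S.ht q.1 ≤ y ∧ S.ht q.2 ≤ x) =
          (S.CR r).filter (fun C => S.ht C ≤ y) ×ˢ (S.CR r).filter (fun C => S.ht C ≤ x) := by
        ext q
        simp only [Finset.mem_filter, Finset.mem_product]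
        tauto
      rw [hfp, Finset.sum_product]
      refine Finset.sum_congr rfl fun C _ => ?_
      rw [Finset.sum_comm]
      refine Finset.sum_congr rfl fun C' _ => ?_
      unfold Sys.u
      rw [Finset.sum_mul_sum, Finset.mul_sum]
      refine Finset.sum_congr rfl fun R _ => ?_
      rw [Finset.mul_sum]
    rw [hRHS, Finset.sum_product, sum_LH S hy]
    refine Finset.sum_le_sum fun C _ => Finset.sum_le_sum fun R _ => ?_
    rw [sum_LH S hx]
    refine Finset.sum_le_sum fun C' _ => Finset.sum_le_sum fun R' _ => ?_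
    simp only [Sys.wt_append]
    have h1 : ((S.ncr r C C' : ℝ) + 1) ≤ (S.nc (C ++ R) (C' ++ R') : ℝ) + 1 := by
      have := ncr_le_nc S r C C' R R'
      have h2 : (S.ncr r C C' : ℝ) ≤ (S.nc (C ++ R) (C' ++ R') : ℝ) := by exact_mod_cast this
      linarith
    have h3 : 0 ≤ S.wt C * S.wt R * (S.wt C' * S.wt R') :=
      mul_nonneg (mul_nonneg (S.wt_nonneg _) (S.wt_nonneg _))
        (mul_nonneg (S.wt_nonneg _) (S.wt_nonneg _))
    calc S.wt C * S.wt R * (S.wt C' * S.wt R') / ((S.nc (C ++ R) (C' ++ R') : ℝ) + 1)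
        ≤ S.wt C * S.wt R * (S.wt C' * S.wt R') / ((S.ncr r C C' : ℝ) + 1) :=
          div_le_div_of_nonneg_left h3 (by positivity) h1
      _ = S.wt C * S.wt C' / ((S.ncr r C C' : ℝ) + 1) * (S.wt R * S.wt R') := by ring

end Pool.PTCross
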